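import Pool.Agent.Lib.MP_e08f0b_an.Compact

/-!
# Hölder extension into Euclidean space: `c_α(n) ≤ C n^(α - 1/2)`

We prove that there is one constant `C` such that for every `1/2 < α < 1` and every `n`,
every map from a subset of a metric space into `ℓ_2^n` that is `α`-Hölder with constant `1`
extends to the whole space as an `α`-Hölder map with constant `C n^(α - 1/2)`.
-/

set_option autoImplicit false

namespace Pool.Agent.Results.MP_e08f0b_an.HolderExtUpper

universe u

/-- `HolderExtension α n c`: for every metric space `M`, every subset `E` of `M` and every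
map `φ : E → ℓ_2^n` with `‖φ x - φ y‖ ≤ d(x,y)^α` on `E`, there is a map `ψ : M → ℓ_2^n`
with `ψ = φ` on `E` and `‖ψ x - ψ y‖ ≤ c d(x,y)^α` on `M`. -/
def HolderExtension (α : ℝ) (n : ℕ) (c : ℝ) : Prop :=
  ∀ (M : Type u) [MetricSpace M] (E : Set M) (φ : E → EuclideanSpace ℝ (Fin n)),
    (∀ x y : E, ‖φ x - φ y‖ ≤ dist (x : M) (y : M) ^ α) →
    ∃ ψ : M → EuclideanSpace ℝ (Fin n), (∀ x : E, ψ (x : M) = φ x) ∧
      ∀ x y : M, ‖ψ x - ψ y‖ ≤ c * dist x y ^ α

/-- The constant `c_α(n)`: the infimum of all `c` with the extension property. -/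
noncomputable def extensionConstant (α : ℝ) (n : ℕ) : ℝ :=
  sInf {c : ℝ | HolderExtension.{u} α n c}

lemma holderExtension_bound {α : ℝ} (hα : 1 / 2 < α) (hα1 : α < 1) (n : ℕ) :
    HolderExtension.{u} α n (5000 * (n : ℝ) ^ (α - 1 / 2)) := by
  classical
  intro M _ E φ hφ
  rcases Nat.eq_zero_or_pos n with hn | hn
  · subst hn
    refine ⟨fun _ => 0, ?_, ?_⟩
    · intro x
      exact Subsingleton.elim _ _
    · intro x y
      simp only [sub_self, norm_zero]
      positivity
  · obtain ⟨ψ, h1, h2⟩ := Pool.Agent.MPe08f0b.extension_bound (n := n) hn hα.le hα1.le E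
      (fun z => if h : z ∈ E then φ ⟨z, h⟩ else 0) (by
        intro x hx y hy
        simp only [dif_pos hx, dif_pos hy]
        exact hφ ⟨x, hx⟩ ⟨y, hy⟩)
    refine ⟨ψ, ?_, ?_⟩
    · intro x
      rw [h1 x x.2]
      simp
    · intro x y
      rw [mul_assoc]
      exact h2 x y

lemma bddBelow_set (α : ℝ) (n : ℕ) : BddBelow {c : ℝ | HolderExtension.{u} α n c} := by
  refine ⟨0, ?_⟩
  intro c hc
  -- test on the real line
  obtain ⟨ψ, _, h2⟩ := hc (ULift.{u} ℝ) ∅ (fun x => absurd x.2 (Set.notMem_empty _))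
    (fun x => absurd x.2 (Set.notMem_empty _))
  have h3 := h2 (ULift.up 1) (ULift.up 0)
  have h4 : 0 < dist (ULift.up 1 : ULift.{u} ℝ) (ULift.up 0) ^ α := by
    apply Real.rpow_pos_of_pos
    apply dist_pos.mpr
    intro h
    exact absurd (ULift.up_injective h) one_ne_zero
  have h5 := (norm_nonneg _).trans h3
  by_contra hneg
  rw [not_le] at hneg
  nlinarith

/-- There is a constant `C` (not depending on `n`, nor on `α`) such that for all
`1/2 < α < 1` and all `n` the extension property holds with the constant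
`C n^(α - 1/2)`; in particular `c_α(n) ≤ C n^(α - 1/2)`. -/
theorem result : ∃ C : ℝ, ∀ α : ℝ, 1 / 2 < α → α < 1 → ∀ n : ℕ,
    HolderExtension.{u} α n (C * (n : ℝ) ^ (α - 1 / 2)) ∧
      extensionConstant.{u} α n ≤ C * (n : ℝ) ^ (α - 1 / 2) := by
  refine ⟨5000, fun α hα hα1 n => ⟨holderExtension_bound hα hα1 n, ?_⟩⟩
  exact csInf_le (bddBelow_set α n) (holderExtension_bound hα hα1 n)

end Pool.Agent.Results.MP_e08f0b_an.HolderExtUpper
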